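import Mathlib
import Pool.Agent.Helper126.Sus.Forc
import Pool.Agent.H172Z.Unif.Main

/-!
# Two colours do not suffice in tree uniformization

For every ladder system `C` there is a forcing notion with the countable chain condition which
forces, for some Aronszajn tree `T`, that every 2-colouring of `C` has a `T`-uniformization while
some colouring of `C` with natural numbers has none.

Idea: add a Cohen colouring `c` of `C` with natural numbers and then uniformize all 2-colourings
by a finite support iteration. Among infinitely many conditions which give different colours to a
common point of their ladders, two are compatible, because only finitely many patterns of two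
colours have to be matched.
-/

namespace Pool.Agent.Results.MP_62a69e_lc.ATwoNotOmega

open Pool.Agent.Helper126.Sus.Forc

theorem result :
    (∃ C : K1 → Set K1, IsLadder C) ∧ ∀ C : K1 → Set K1, IsLadder C →
      ∃ (P : Type) (_ : Preorder P) (T : Type) (lt : T → T → Set P) (ht : T → K1),
        Nonempty P ∧ CCC P ∧ ∀ p : P,
          p ∈ IsAronszajn lt ht ∧ p ∈ UnifTwo C lt ht ∧ p ∈ fnot (Unif C lt ht) :=
  ⟨Pool.Agent.H172Z.Unif.exists_isLadder, Pool.Agent.H172Z.Unif.main⟩

end Pool.Agent.Results.MP_62a69e_lc.ATwoNotOmega
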